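import Pool.Agent.MP_6a4325_al.H84.Spec3

/-! Polycyclic-by-finite groups with bounded degrees are abelian-by-finite. -/

set_option autoImplicit false

namespace Pool.Agent.MP_6a4325_al.H92

open Pool.Agent.MP_6a4325_al.H62 Pool.Agent.MP_6a4325_al.H84

theorem fb_map {k L Q : Type} [Field k] [Group L] [Group Q] (f : L →* Q)
    (hf : Function.Surjective f) {E : Subgroup L} {D : ℕ} (h : Fb k E D) : Fb k (E.map f) D :=
  fun T _ _ σ hσ t ht hE => h T (σ.comp f)
    ⟨hσ.1, fun U hU => hσ.2 U fun g u hu => by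
      obtain ⟨g, rfl⟩ := hf g
      exact hU g u hu⟩ t ht fun e he => hE _ ⟨e, he, rfl⟩

theorem inf_ker {L : Type} [Group L] (A N : Subgroup L) [A.Normal] (hA : A ≠ ⊥) (ht : Tf A)
    (hN : N.FiniteIndex) : Infinite ((QuotientGroup.mk' A).subgroupMap N).ker := by
  obtain ⟨⟨a, ha⟩, h1⟩ := Subgroup.ne_bot_iff_exists_ne_one.1 hA
  have h2 : ¬ IsOfFinOrder a := fun h => h1 (Subtype.ext (ht a ha h))
  obtain ⟨m, m0, -, hm⟩ := N.exists_pow_mem_of_index_ne_zero hN.index_ne_zero a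
  refine Infinite.of_injective (fun j : ℕ => ⟨⟨(a ^ m) ^ j, pow_mem hm j⟩, Subtype.ext
    ((QuotientGroup.eq_one_iff _).2 (pow_mem (pow_mem ha m) j))⟩) fun i j h => ?_
  have h3 : (a ^ m) ^ i = (a ^ m) ^ j := congrArg (fun x => (x.1.1 : L)) h
  exact injective_pow_iff_not_isOfFinOrder.2 (fun h => h2 (h.of_pow m0.ne')) h3

theorem val : PCApi → VsApi → SPoly → SPln → SCen → SVal := by
  intro pc vs poly pln cen p _ L _ E D hL hE hF
  obtain ⟨N, -, hN, n, hn⟩ := poly L hL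
  induction n using Nat.strong_induction_on generalizing L with
  | _ n ih =>
  rcases finite_or_infinite L with h | h
  · exact VA.of_finite
  obtain ⟨A, a1, a2, a3, a4⟩ := pln L hL h
  have hf := QuotientGroup.mk'_surjective A
  obtain ⟨m, hm, pm⟩ := pc.quotInf n N _ _ ((QuotientGroup.mk' A).subgroupMap_surjective N)
    (inf_ker A N a2 a4 hN) hn
  obtain ⟨B, -, b1, b2⟩ := ih m hm (L ⧸ A) (E.map (QuotientGroup.mk' A)) (vs.nSurj _ _ _ hf hL)
    (Finite.of_surjective _ ((QuotientGroup.mk' A).subgroupMap_surjective E)) (fb_map _ hf hF) _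
    (finiteIndex_map N hN _ hf) pm
  obtain ⟨c1, -, c2⟩ := cen p L E A D hE hF a1 (hL.1 A) a3 a4
  have := finiteIndex_comap B b1 (QuotientGroup.mk' A)
  have : (Subgroup.centralizer (A : Set L)).FiniteIndex := ⟨c1⟩
  refine VA.of_comm (B.comap (QuotientGroup.mk' A) ⊓ Subgroup.centralizer (A : Set L))
    inferInstance fun x hx y hy => c2 x hx.2 y hy.2 ((QuotientGroup.eq_one_iff _).1 ?_)
  have e : (x : L ⧸ A) * y = y * x := b2 _ hx.1 _ hy.1
  simp only [QuotientGroup.mk_mul, QuotientGroup.mk_inv, e]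
  group

end Pool.Agent.MP_6a4325_al.H92
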